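import Pool.Agent.H65.BM.L.N314.OP.Exact
import Pool.Agent.H65.BM.L.N314.OP.ATm

/-!
# Two-sided estimates and dense orbits: the parallelogram law (separable spaces)
-/

set_option autoImplicit false

namespace Pool.Agent.N314.OP

open Filter Topology
open Pool.H770R2.Maz

variable {E : Type*} [NormedAddCommGroup E] [NormedSpace ℝ E]

lemma norm_le_of_weak' {u : ℕ → E} {a : E} {C : ℝ}
    (h : ∀ f : StrongDual ℝ E, Tendsto (fun n => f (u n)) atTop (𝓝 (f a)))
    (hC : ∀ n, ‖u n‖ ≤ C) : ‖a‖ ≤ C := by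
  obtain ⟨f, hf, hfa⟩ := exists_dual_vector'' ℝ a
  have h1 := h f
  rw [hfa] at h1
  simp only [RCLike.ofReal_real_eq_id, id] at h1
  refine le_of_tendsto' h1 fun n => ?_
  calc f (u n) ≤ |f (u n)| := le_abs_self _
    _ = ‖f (u n)‖ := rfl
    _ ≤ ‖f‖ * ‖u n‖ := f.le_opNorm _
    _ ≤ 1 * ‖u n‖ := by gcongr
    _ = ‖u n‖ := one_mul _
    _ ≤ C := hC n

/-- the embedding given by a sequence of functionals -/
noncomputable def jj (g : ℕ → StrongDual ℝ E) : E →ₗ[ℝ] (ℕ → ℝ) :=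
  LinearMap.pi fun k => (g k : E →ₗ[ℝ] ℝ)

lemma jj_apply (g : ℕ → StrongDual ℝ E) (x : E) (k : ℕ) : jj g x k = g k x := rfl

lemma jj_inj {g : ℕ → StrongDual ℝ E} (hg : ∀ a : E, (∀ k, g k a = 0) → a = 0) :
    Function.Injective (jj g) := by
  intro x y h
  have h1 : x - y = 0 := by
    apply hg
    intro k
    have := congrFun h k
    rw [jj_apply, jj_apply] at this
    rw [map_sub, this, sub_self]
  exact sub_eq_zero.1 h1

lemma jj_ball (hW : WSC E) (g : ℕ → StrongDual ℝ E) : BallCpt (jj g) := by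
  intro u hu
  obtain ⟨a, φ, hφ, h1⟩ := hW u 1 hu
  refine ⟨a, norm_le_of_weak' h1 (fun n => hu _), φ, hφ, ?_⟩
  rw [tendsto_pi_nhds]
  intro k
  exact h1 (g k)

lemma gauge_rpow {p : ℝ} (hp : 1 ≤ p) : Gauge fun t : ℝ => |t| ^ p := by
  refine ⟨?_, ?_, ?_⟩
  · exact continuous_abs.rpow_const fun x => Or.inr (by linarith)
  · intro a ha b hb hab
    simp only [Set.mem_Ici] at ha hb
    show |a| ^ p < |b| ^ p
    rw [abs_of_nonneg ha, abs_of_nonneg hb]
    exact Real.rpow_lt_rpow ha hab (by linarith)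
  · show |(0 : ℝ)| ^ p = 0
    rw [abs_zero]
    exact Real.zero_rpow (by linarith)

lemma jj_asymp (hA : AT E) (hW : WSC E) (hinf : ¬ FiniteDimensional ℝ E) {p : ℝ}
    (hp : 1 ≤ p) (hT : TSLe E p) {g : ℕ → StrongDual ℝ E}
    (hg : ∀ a : E, (∀ k, g k a = 0) → a = 0) : AsympV (fun t : ℝ => |t| ^ p) (jj g) := by
  rintro w ⟨M, hM⟩ hw u
  have hS : Sep E := ⟨g, hg⟩
  have hp0 : 0 < p := by linarith
  refine tendsto_of_subseq_tendsto fun ns hns => ?_
  obtain ⟨a, φ, hφ, h1⟩ := hW (fun n => w (ns n)) M (fun n => hM _)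
  have ha : a = 0 := by
    apply hg
    intro k
    have e1 := h1 (g k)
    have e2 : Tendsto (fun n => g k (w (ns (φ n)))) atTop (𝓝 0) := by
      have := (tendsto_pi_nhds.1 hw) k
      exact (this.comp hns).comp hφ.tendsto_atTop
    exact tendsto_nhds_unique e1 e2
  subst ha
  have hwn : WN fun n => w (ns (φ n)) := by
    intro f
    have := h1 f
    rwa [map_zero] at this
  obtain ⟨t, ψ, hψ, h2⟩ := exists_sub (u := fun n => ‖w (ns (φ n))‖) (C := M)
    (fun n => by rw [abs_norm]; exact hM _)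
  obtain ⟨l, χ, hχ, h3⟩ := exists_lim (hwn.comp hψ) h2 u
  have h2' := h2.comp hχ.tendsto_atTop
  refine ⟨fun n => φ (ψ (χ n)), ?_⟩
  have hcont : Continuous fun t : ℝ => |t| ^ p := (gauge_rpow hp).1
  have h4 : Tendsto (fun n => |‖u + w (ns (φ (ψ (χ n))))‖| ^ p - |‖w (ns (φ (ψ (χ n))))‖| ^ p)
      atTop (𝓝 (|l| ^ p - |t| ^ p)) :=
    ((hcont.tendsto l).comp h3).sub ((hcont.tendsto t).comp h2')
  have ht0 : 0 ≤ t := ge_of_tendsto' h2 fun n => norm_nonneg _
  have hl0 : 0 ≤ l := ge_of_tendsto' h3 fun n => norm_nonneg _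
  have h5 : |l| ^ p - |t| ^ p = |‖u‖| ^ p := by
    rw [abs_of_nonneg ht0, abs_of_nonneg hl0, abs_norm]
    rcases ht0.eq_or_lt with h0 | h0
    · have e1 : l = ‖u‖ := by
        subst h0
        have e2 : Tendsto (fun n => w (ns (φ (ψ (χ n))))) atTop (𝓝 0) :=
          tendsto_zero_iff_norm_tendsto_zero.2 h2'
        have e3 := (e2.const_add u).norm
        rw [add_zero] at e3
        exact tendsto_nhds_unique h3 e3
      rw [e1, ← h0, Real.zero_rpow hp0.ne', sub_zero]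
    · have hl : Lim u t l := ⟨_, (hwn.comp hψ).comp hχ, h2', h3⟩
      have := exact_lp hA hW hS hinf hp hT h0 hl
      rw [this]; ring
  rw [h5] at h4
  exact h4

/-- **Two-sided asymptotic estimates and dense orbits give the parallelogram law.** -/
theorem main_TSL [CompleteSpace E] [TopologicalSpace.SeparableSpace E] (hA : AT E) (hW : WSC E)
    (hS : Sep E) (hinf : ¬ FiniteDimensional ℝ E) {p : ℝ}
    (hp : 1 ≤ p) (hT : TSLe E p) (x y : E) :
    ‖x + y‖ * ‖x + y‖ + ‖x - y‖ * ‖x - y‖ = 2 * (‖x‖ * ‖x‖ + ‖y‖ * ‖y‖) := by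
  obtain ⟨g, hg⟩ := hS
  have hG := gauge_rpow hp
  refine parallelogram_of hG (fun v => ?_) x y
  exact parv_AT hG hinf (jj_inj hg) (jj_ball hW g) (jj_asymp hA hW hinf hp hT hg) hA v

end Pool.Agent.N314.OP
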