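import Pool.Agent.H65.BM.L.N314.OP.Near
import Pool.Agent.H65.BM.L.N314.OP.Dir
import Pool.Agent.H65.BM.L.N314.OP.Res

/-!
# Main implications for spaces close to Hilbert spaces
-/

set_option autoImplicit false

namespace Pool.Agent.N314.OP

open Filter Topology Pool.Agent.N314.OP.Mod

variable {E : Type*} [NormedAddCommGroup E] [NormedSpace ℝ E]

/-- two-sided estimates in one direction are enough -/
lemma TSLe_of_dir (hA : AT E) {e : E} (he : ‖e‖ = 1) {p : ℝ}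
    (h : ∀ η : ℝ, 0 < η → ∃ c C : ℝ, 0 < c ∧ ∀ y : ℕ → E, (∀ n, ‖y n‖ = 1) → WN y →
      ∀ t ∈ Set.Ioc (0 : ℝ) 1,
      1 + c * t ^ (p + η) ≤ liminf (fun n => ‖t • e + y n‖) atTop ∧
      limsup (fun n => ‖t • e + y n‖) atTop ≤ 1 + C * t ^ (p - η)) : TSLe E p := by
  intro η hη _
  obtain ⟨c, C, hc, h⟩ := h η hη
  refine ⟨c, C, hc, fun x l hx0 hx hl => ?_⟩
  have hx1 : 0 < ‖x‖ := norm_pos_iff.2 hx0
  constructor
  · refine le_of_forall_pos_le_add fun ε hε => ?_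
    obtain ⟨y, l', h1, h2, h3, h4⟩ := lim_dir hA he hl hε
    have h5 := (h y h1 h2 ‖x‖ ⟨hx1, hx⟩).1
    rw [h3.liminf_eq] at h5
    have := (abs_le.1 h4).2
    linarith
  · refine le_of_forall_pos_le_add fun ε hε => ?_
    obtain ⟨y, l', h1, h2, h3, h4⟩ := lim_dir hA he hl hε
    have h5 := (h y h1 h2 ‖x‖ ⟨hx1, hx⟩).2
    rw [h3.limsup_eq] at h5
    have := (abs_le.1 h4).1
    linarith

/-- **main implication** -/
theorem main_near [CompleteSpace E] [TopologicalSpace.SeparableSpace E] (hA : AT E)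
    (hinf : ¬ FiniteDimensional ℝ E)
    (h1 : ∀ η : ℝ, 0 < η → η < 1 → ∃ K : ℝ, 0 < K ∧ USp E (2 - η) K)
    (h2 : ∀ η : ℝ, 0 < η → η < 1 → ∃ c : ℝ, 0 < c ∧ UCq E (2 + η) c)
    (hO : OpialL E) (x y : E) :
    ‖x + y‖ * ‖x + y‖ + ‖x - y‖ * ‖x - y‖ = 2 * (‖x‖ * ‖x‖ + ‖y‖ * ‖y‖) := by
  have hS : Sep E := sep_of_separable
  have hr : Function.Surjective (NormedSpace.inclusionInDoubleDual ℝ E) := by
    obtain ⟨c, hc, h⟩ := h2 (1 / 2) (by norm_num) (by norm_num)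
    exact reflexive_of_UCq (by norm_num) hc h
  have hW := wsc_of_uw (uw_of_reflexive hr) hS
  exact main_TSL hA hW hS hinf (p := 2) (by norm_num) (opial_TSLe hO h1 h2) x y

end Pool.Agent.N314.OP
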