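import Mathlib

/-!
# Comparison of functions with controlled right slopes
-/

set_option autoImplicit false

namespace Pool.Agent.N314.OP

open Filter Topology Set

/-- the comparison function -/
noncomputable def BB (p A k z : ℝ) : ℝ := (A + k * z ^ p) ^ (1 / p)

lemma BB_pos {p A k z : ℝ} (hA : 0 < A) (hk : 0 ≤ k) (hz : 0 ≤ z) : 0 < BB p A k z := by
  unfold BB
  have : 0 ≤ z ^ p := Real.rpow_nonneg hz p
  positivity

lemma BB_rpow {p A k z : ℝ} (hp : 1 ≤ p) (hA : 0 < A) (hk : 0 ≤ k) (hz : 0 ≤ z) :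
    BB p A k z ^ p = A + k * z ^ p := by
  unfold BB
  have : 0 ≤ z ^ p := Real.rpow_nonneg hz p
  rw [← Real.rpow_mul (by positivity), one_div_mul_cancel (by linarith), Real.rpow_one]

lemma hasDerivAt_BB {p A k z : ℝ} (hp : 1 ≤ p) (hA : 0 < A) (hk : 0 ≤ k) (hz : 0 < z) :
    HasDerivAt (BB p A k) (k * (z / BB p A k z) ^ (p - 1)) z := by
  have hz' : 0 < z ^ p := Real.rpow_pos_of_pos hz p
  have hbase : 0 < A + k * z ^ p := by positivity
  have h1 : HasDerivAt (fun z : ℝ => A + k * z ^ p) (k * (p * z ^ (p - 1))) z := by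
    have := (Real.hasDerivAt_rpow_const (x := z) (p := p) (Or.inl hz.ne')).const_mul k
    exact this.const_add A
  have h2 := h1.rpow_const (p := 1 / p) (Or.inl hbase.ne')
  have h3 : k * (p * z ^ (p - 1)) * (1 / p) * (A + k * z ^ p) ^ (1 / p - 1)
      = k * (z / BB p A k z) ^ (p - 1) := by
    rw [Real.div_rpow hz.le (BB_pos hA hk hz.le).le]
    have e1 : BB p A k z ^ (p - 1) = (A + k * z ^ p) ^ (1 - 1 / p) := by
      unfold BB
      rw [← Real.rpow_mul hbase.le]
      congr 1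
      field_simp
    have e2 : (A + k * z ^ p) ^ (1 / p - 1) = ((A + k * z ^ p) ^ (1 - 1 / p))⁻¹ := by
      rw [← Real.rpow_neg hbase.le]
      congr 1
      ring
    rw [e1, e2]
    field_simp
  rw [h3] at h2
  exact h2

/-- upper comparison -/
theorem upper {g : ℝ → ℝ} {p t : ℝ} (hp : 1 ≤ p) (ht : 0 < t) (hg : ContinuousOn g (Ici 0))
    (hpos : ∀ s, 0 ≤ s → 0 < g s) (h0 : ∀ s, 0 ≤ s → g s ≤ t + s)
    (hs : ∀ s, 0 < s → ∀ η, 0 < η → ∃ᶠ z in 𝓝[>] s, slope g s z < (1 + η) * (s / g s) ^ (p - 1)) :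
    ∀ s, 0 ≤ s → g s ^ p ≤ t ^ p + s ^ p := by
  intro s hs0
  rcases hs0.eq_or_lt with h | hs0
  · rw [← h, Real.zero_rpow (by linarith), add_zero]
    have := h0 0 le_rfl
    rw [add_zero] at this
    exact Real.rpow_le_rpow (hpos 0 le_rfl).le this (by linarith)
  have key : ∀ ε : ℝ, 0 < ε → ε < s → g s ^ p ≤ (t + ε) ^ p + (1 + 2 * ε) * s ^ p := by
    intro ε hε hεs
    have hA : 0 < (t + ε) ^ p := Real.rpow_pos_of_pos (by linarith) p
    have hk : (0 : ℝ) ≤ 1 + 2 * ε := by positivity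
    have hmain := image_le_of_liminf_slope_right_lt_deriv_boundary' (f := g)
      (f' := fun x => (1 + ε) * (x / g x) ^ (p - 1)) (a := ε) (b := s)
      (B := BB p ((t + ε) ^ p) (1 + 2 * ε))
      (B' := fun z => (1 + 2 * ε) * (z / BB p ((t + ε) ^ p) (1 + 2 * ε) z) ^ (p - 1))
      (hg.mono fun x hx => hε.le.trans hx.1)
      (fun x hx r hr => (hs x (hε.trans_le hx.1) ε hε).mono fun z hz => hz.trans hr)
      (by
        refine (h0 ε hε.le).trans ?_
        have h1 : ((t + ε) ^ p) ^ (1 / p) = t + ε := by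
          rw [← Real.rpow_mul (by linarith), mul_one_div_cancel (by linarith), Real.rpow_one]
        calc t + ε = ((t + ε) ^ p) ^ (1 / p) := h1.symm
          _ ≤ BB p ((t + ε) ^ p) (1 + 2 * ε) ε := by
            unfold BB
            have : 0 ≤ ε ^ p := Real.rpow_nonneg hε.le p
            exact Real.rpow_le_rpow hA.le (by nlinarith) (by positivity))
      (fun z hz => (hasDerivAt_BB hp hA hk (hε.trans_le hz.1)).continuousAt.continuousWithinAt)
      (fun z hz => (hasDerivAt_BB hp hA hk (hε.trans_le hz.1)).hasDerivWithinAt)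
      (fun x hx hgx => by
        have hx0 : 0 < x := hε.trans_le hx.1
        show (1 + ε) * (x / g x) ^ (p - 1) < (1 + 2 * ε) * _
        rw [← hgx]
        have h1 : 0 < (x / g x) ^ (p - 1) :=
          Real.rpow_pos_of_pos (div_pos hx0 (hpos x hx0.le)) _
        nlinarith)
      (right_mem_Icc.2 hεs.le)
    calc g s ^ p ≤ (BB p ((t + ε) ^ p) (1 + 2 * ε) s) ^ p :=
          Real.rpow_le_rpow (hpos s hs0.le).le hmain (by linarith)
      _ = _ := BB_rpow hp hA hk hs0.le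
  have hlim : Tendsto (fun ε : ℝ => (t + ε) ^ p + (1 + 2 * ε) * s ^ p) (𝓝[>] 0)
      (𝓝 (t ^ p + s ^ p)) := by
    have hc : ContinuousAt (fun ε : ℝ => (t + ε) ^ p + (1 + 2 * ε) * s ^ p) 0 := by
      have h1 : ContinuousAt (fun ε : ℝ => (t + ε) ^ p) 0 := by
        refine ContinuousAt.rpow_const (by fun_prop) (Or.inl ?_)
        rw [add_zero]; exact ht.ne'
      exact h1.add (by fun_prop)
    have h2 := hc.tendsto
    simp only [add_zero, mul_zero, one_mul] at h2
    exact h2.mono_left nhdsWithin_le_nhds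
  refine ge_of_tendsto hlim ?_
  filter_upwards [Ioo_mem_nhdsGT hs0] with ε hε
  exact key ε hε.1 hε.2

/-- lower comparison -/
theorem lower {g : ℝ → ℝ} {p t : ℝ} (hp : 1 ≤ p) (ht : 0 < t) (hg : ContinuousOn g (Ici 0))
    (hpos : ∀ s, 0 ≤ s → 0 < g s) (h0 : ∀ s, 0 ≤ s → t - s ≤ g s)
    (hs : ∀ s, 0 < s → ∀ η, 0 < η → ∃ᶠ z in 𝓝[>] s, (1 - η) * (s / g s) ^ (p - 1) < slope g s z) :
    ∀ s, 0 ≤ s → t ^ p + s ^ p ≤ g s ^ p := by
  intro s hs0
  rcases hs0.eq_or_lt with h | hs0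
  · rw [← h, Real.zero_rpow (by linarith), add_zero]
    have := h0 0 le_rfl
    rw [sub_zero] at this
    exact Real.rpow_le_rpow ht.le this (by linarith)
  have key : ∀ ε : ℝ, 0 < ε → ε < s → ε < 1 / 2 → ε < t / 2 →
      (t - 2 * ε) ^ p + (1 - 2 * ε) * s ^ p ≤ g s ^ p := by
    intro ε hε hεs hε1 hεt
    have hA : 0 < (t - 2 * ε) ^ p := Real.rpow_pos_of_pos (by linarith) p
    have hk : (0 : ℝ) ≤ 1 - 2 * ε := by linarith
    have hmain := image_le_of_liminf_slope_right_lt_deriv_boundary' (f := fun x => - g x)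
      (f' := fun x => - ((1 - ε) * (x / g x) ^ (p - 1))) (a := ε) (b := s)
      (B := fun z => - BB p ((t - 2 * ε) ^ p) (1 - 2 * ε) z)
      (B' := fun z => - ((1 - 2 * ε) * (z / BB p ((t - 2 * ε) ^ p) (1 - 2 * ε) z) ^ (p - 1)))
      (hg.mono fun x hx => hε.le.trans hx.1).neg
      (fun x hx r hr => (hs x (hε.trans_le hx.1) ε hε).mono fun z hz => by
        have e : slope (fun x => - g x) x z = - slope g x z := by
          rw [slope_def_field, slope_def_field]; ring
        rw [e]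
        linarith)
      (by
        show - g ε ≤ - _
        rw [neg_le_neg_iff]
        refine le_trans ?_ (h0 ε hε.le)
        have h1 : BB p ((t - 2 * ε) ^ p) (1 - 2 * ε) ε ≤ ((t - ε) ^ p) ^ (1 / p) := by
          unfold BB
          have h3 : 0 ≤ ε ^ p := Real.rpow_nonneg hε.le p
          have h4 := Real.add_rpow_le_rpow_add (a := t - 2 * ε) (b := ε) (p := p) (by linarith)
            hε.le hp
          have e : t - 2 * ε + ε = t - ε := by ring
          rw [e] at h4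
          exact Real.rpow_le_rpow (by positivity) (by nlinarith) (by positivity)
        refine h1.trans (le_of_eq ?_)
        rw [← Real.rpow_mul (by linarith), mul_one_div_cancel (by linarith), Real.rpow_one])
      (fun z hz =>
        (hasDerivAt_BB hp hA hk (hε.trans_le hz.1)).continuousAt.continuousWithinAt.neg)
      (fun z hz => (hasDerivAt_BB hp hA hk (hε.trans_le hz.1)).hasDerivWithinAt.neg)
      (fun x hx hgx => by
        have hx0 : 0 < x := hε.trans_le hx.1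
        show - ((1 - ε) * (x / g x) ^ (p - 1)) < - ((1 - 2 * ε) * _)
        have hgx' : g x = BB p ((t - 2 * ε) ^ p) (1 - 2 * ε) x := neg_injective hgx
        rw [← hgx']
        have h1 : 0 < (x / g x) ^ (p - 1) :=
          Real.rpow_pos_of_pos (div_pos hx0 (hpos x hx0.le)) _
        nlinarith)
      (right_mem_Icc.2 hεs.le)
    have hmain' : BB p ((t - 2 * ε) ^ p) (1 - 2 * ε) s ≤ g s := neg_le_neg_iff.1 hmain
    calc (t - 2 * ε) ^ p + (1 - 2 * ε) * s ^ p = (BB p ((t - 2 * ε) ^ p) (1 - 2 * ε) s) ^ p :=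
          (BB_rpow hp hA hk hs0.le).symm
      _ ≤ g s ^ p := Real.rpow_le_rpow (BB_pos hA hk hs0.le).le hmain' (by linarith)
  have hlim : Tendsto (fun ε : ℝ => (t - 2 * ε) ^ p + (1 - 2 * ε) * s ^ p) (𝓝[>] 0)
      (𝓝 (t ^ p + s ^ p)) := by
    have hc : ContinuousAt (fun ε : ℝ => (t - 2 * ε) ^ p + (1 - 2 * ε) * s ^ p) 0 := by
      have h1 : ContinuousAt (fun ε : ℝ => (t - 2 * ε) ^ p) 0 := by
        refine ContinuousAt.rpow_const (by fun_prop) (Or.inl ?_)
        rw [mul_zero, sub_zero]; exact ht.ne'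
      exact h1.add (by fun_prop)
    have h2 := hc.tendsto
    simp only [sub_zero, mul_zero, one_mul] at h2
    exact h2.mono_left nhdsWithin_le_nhds
  refine le_of_tendsto hlim ?_
  filter_upwards [Ioo_mem_nhdsGT hs0, Ioo_mem_nhdsGT (show (0 : ℝ) < 1 / 2 by norm_num),
    Ioo_mem_nhdsGT (show (0 : ℝ) < t / 2 by linarith)] with ε h1 h2 h3
  exact key ε h1.1 h1.2 h2.2 h3.2

/-- selection of good scales -/
theorem sel {ψ : ℝ → ℝ} {a b : ℝ}
    (hψ : ∀ δ : ℝ, 0 < δ → δ < 1 → ∃ c C : ℝ, 0 < c ∧ ∀ r : ℝ, 0 < r → r ≤ 1 →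
      c * r ^ δ ≤ ψ r ∧ ψ r ≤ C * r ^ (-δ)) (ha : 0 < a) (hb : 0 < b) {η δ : ℝ}
    (hη : 0 < η) (hδ : 0 < δ) : ∃ r, 0 < r ∧ r < δ ∧ ψ (a * r) ≤ (1 + η) * ψ (b * r) := by
  by_contra hcon
  push Not at hcon
  obtain ⟨r0, hr0, hr1, hr2, hr3⟩ : ∃ r0, 0 < r0 ∧ r0 < δ ∧ a * r0 ≤ 1 ∧ b * r0 ≤ 1 := by
    refine ⟨min (δ / 2) (min (1 / a) (1 / b)), by positivity, ?_, ?_, ?_⟩
    · exact (min_le_left _ _).trans_lt (by linarith)
    · calc a * _ ≤ a * (1 / a) := by
            gcongr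
            exact (min_le_right _ _).trans (min_le_left _ _)
        _ = 1 := mul_one_div_cancel ha.ne'
    · calc b * _ ≤ b * (1 / b) := by
            gcongr
            exact (min_le_right _ _).trans (min_le_right _ _)
        _ = 1 := mul_one_div_cancel hb.ne'
  have hη1 : (0 : ℝ) < 1 + η := by linarith
  -- an exponent for which the bounds grow more slowly than `1 + η`
  have hexp : ∀ q : ℝ, 0 < q → ∃ δ' : ℝ, 0 < δ' ∧ δ' < 1 ∧ 1 < (1 + η) * q ^ δ' := by
    intro q hq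
    have h1 : Tendsto (fun d : ℝ => (1 + η) * q ^ d) (𝓝 0) (𝓝 ((1 + η) * q ^ (0 : ℝ))) :=
      (tendsto_const_nhds.rpow tendsto_id (Or.inl hq.ne')).const_mul _
    rw [Real.rpow_zero, mul_one] at h1
    have h2 : ∀ᶠ d : ℝ in 𝓝[>] 0, 1 < (1 + η) * q ^ d :=
      (h1.mono_left nhdsWithin_le_nhds).eventually_const_lt (by linarith)
    have h3 : ∀ᶠ d : ℝ in 𝓝[>] 0, d ∈ Ioo (0 : ℝ) 1 := Ioo_mem_nhdsGT one_pos
    obtain ⟨d, hd1, hd2⟩ := (h2.and h3).exists
    exact ⟨d, hd2.1, hd2.2, hd1⟩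
  have hψpos : ∀ r, 0 < r → r ≤ 1 → 0 < ψ r := by
    intro r h1 h2
    obtain ⟨c, C, hc, h⟩ := hψ (1 / 2) (by norm_num) (by norm_num)
    exact lt_of_lt_of_le (by positivity) (h r h1 h2).1
  rcases le_total a b with hab | hab
  · -- `a ≤ b`: go down with ratio `a / b`
    have hq : 0 < a / b := by positivity
    have hq1 : a / b ≤ 1 := by rw [div_le_one hb]; exact hab
    have key : ∀ k : ℕ, (1 + η) ^ k * ψ (a * r0) ≤ ψ (a * ((a / b) ^ k * r0)) := by
      intro k
      induction k with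
      | zero => simp
      | succ k ih =>
        have hr : 0 < (a / b) ^ (k + 1) * r0 := by positivity
        have hr' : (a / b) ^ (k + 1) * r0 < δ := by
          have : (a / b) ^ (k + 1) ≤ 1 := pow_le_one₀ hq.le hq1
          nlinarith
        have h1 := hcon _ hr hr'
        have e : b * ((a / b) ^ (k + 1) * r0) = a * ((a / b) ^ k * r0) := by
          rw [pow_succ]; field_simp
        rw [e] at h1
        calc (1 + η) ^ (k + 1) * ψ (a * r0) = (1 + η) * ((1 + η) ^ k * ψ (a * r0)) := by ring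
          _ ≤ (1 + η) * ψ (a * ((a / b) ^ k * r0)) := by gcongr
          _ ≤ _ := h1.le
    obtain ⟨δ', hδ1, hδ2, hδ3⟩ := hexp (a / b) hq
    obtain ⟨c, C, hc, hcC⟩ := hψ δ' hδ1 hδ2
    have hpos0 := hψpos (a * r0) (by positivity) hr2
    obtain ⟨n, hn⟩ := pow_unbounded_of_one_lt (C * (a * r0) ^ (-δ') / ψ (a * r0)) hδ3
    rw [div_lt_iff₀ hpos0] at hn
    have h1 := key n
    have hq' : (a / b) ^ n ≤ 1 := pow_le_one₀ hq.le hq1
    have h3 := (hcC (a * ((a / b) ^ n * r0)) (by positivity) (by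
      calc a * ((a / b) ^ n * r0) ≤ a * (1 * r0) := by gcongr
        _ ≤ 1 := by rw [one_mul]; exact hr2)).2
    have e1 : (a * ((a / b) ^ n * r0)) ^ (-δ') = ((a / b) ^ δ') ^ (-(n : ℝ)) * (a * r0) ^ (-δ') := by
      have : a * ((a / b) ^ n * r0) = (a / b) ^ (n : ℝ) * (a * r0) := by
        rw [Real.rpow_natCast]; ring
      rw [this, Real.mul_rpow (by positivity) (by positivity), ← Real.rpow_mul hq.le,
        ← Real.rpow_mul hq.le]
      congr 2
      ring
    have hqd : 0 < (a / b) ^ δ' := Real.rpow_pos_of_pos hq _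
    have e2 : ((a / b) ^ δ') ^ (-(n : ℝ)) = (((a / b) ^ δ') ^ n)⁻¹ := by
      rw [Real.rpow_neg hqd.le, Real.rpow_natCast]
    rw [e1, e2] at h3
    have h4 : ((a / b) ^ δ') ^ n * ((1 + η) ^ n * ψ (a * r0)) ≤ C * (a * r0) ^ (-δ') := by
      have hpn : 0 < ((a / b) ^ δ') ^ n := by positivity
      calc ((a / b) ^ δ') ^ n * ((1 + η) ^ n * ψ (a * r0))
          ≤ ((a / b) ^ δ') ^ n * (C * ((((a / b) ^ δ') ^ n)⁻¹ * (a * r0) ^ (-δ'))) :=
            mul_le_mul_of_nonneg_left (h1.trans h3) hpn.le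
        _ = C * (a * r0) ^ (-δ') := by field_simp
    have h5 : ((1 + η) * (a / b) ^ δ') ^ n * ψ (a * r0) =
        ((a / b) ^ δ') ^ n * ((1 + η) ^ n * ψ (a * r0)) := by
      rw [mul_pow]; ring
    linarith
  · -- `b ≤ a`: go down with ratio `b / a`
    have hq : 0 < b / a := by positivity
    have hq1 : b / a ≤ 1 := by rw [div_le_one ha]; exact hab
    have key : ∀ k : ℕ, (1 + η) ^ k * ψ (a * ((b / a) ^ k * r0)) ≤ ψ (a * r0) := by
      intro k
      induction k with
      | zero => simp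
      | succ k ih =>
        have hr : 0 < (b / a) ^ k * r0 := by positivity
        have hr' : (b / a) ^ k * r0 < δ := by
          have : (b / a) ^ k ≤ 1 := pow_le_one₀ hq.le hq1
          nlinarith
        have h1 := hcon _ hr hr'
        have e : b * ((b / a) ^ k * r0) = a * ((b / a) ^ (k + 1) * r0) := by
          rw [pow_succ]; field_simp
        rw [e] at h1
        calc (1 + η) ^ (k + 1) * ψ (a * ((b / a) ^ (k + 1) * r0))
            = (1 + η) ^ k * ((1 + η) * ψ (a * ((b / a) ^ (k + 1) * r0))) := by ring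
          _ ≤ (1 + η) ^ k * ψ (a * ((b / a) ^ k * r0)) := by gcongr
          _ ≤ _ := ih
    obtain ⟨δ', hδ1, hδ2, hδ3⟩ := hexp (b / a) hq
    obtain ⟨c, C, hc, hcC⟩ := hψ δ' hδ1 hδ2
    have hcr : 0 < c * (a * r0) ^ δ' := by positivity
    obtain ⟨n, hn⟩ := pow_unbounded_of_one_lt (ψ (a * r0) / (c * (a * r0) ^ δ')) hδ3
    rw [div_lt_iff₀ hcr] at hn
    have h1 := key n
    have hq' : (b / a) ^ n ≤ 1 := pow_le_one₀ hq.le hq1
    have h3 := (hcC (a * ((b / a) ^ n * r0)) (by positivity) (by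
      calc a * ((b / a) ^ n * r0) ≤ a * (1 * r0) := by gcongr
        _ ≤ 1 := by rw [one_mul]; exact hr2)).1
    have e1 : (a * ((b / a) ^ n * r0)) ^ δ' = ((b / a) ^ δ') ^ n * (a * r0) ^ δ' := by
      have : a * ((b / a) ^ n * r0) = (b / a) ^ (n : ℝ) * (a * r0) := by
        rw [Real.rpow_natCast]; ring
      rw [this, Real.mul_rpow (by positivity) (by positivity), ← Real.rpow_mul hq.le,
        ← Real.rpow_natCast ((b / a) ^ δ') n, ← Real.rpow_mul hq.le]
      congr 2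
      ring
    rw [e1] at h3
    have h4 : (1 + η) ^ n * (c * (((b / a) ^ δ') ^ n * (a * r0) ^ δ')) ≤ ψ (a * r0) := by
      refine le_trans ?_ h1
      gcongr
    have h5 : ((1 + η) * (b / a) ^ δ') ^ n * (c * (a * r0) ^ δ') =
        (1 + η) ^ n * (c * (((b / a) ^ δ') ^ n * (a * r0) ^ δ')) := by
      rw [mul_pow]; ring
    linarith

end Pool.Agent.N314.OP
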