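import Mathlib

/-!
# Limits of `‖x + y n‖` along weakly null sequences
-/

set_option autoImplicit false

namespace Pool.Agent.N314.OP

open Filter Topology

/-- the isometry group has dense orbits on the unit sphere -/
def AT (E : Type*) [NormedAddCommGroup E] [NormedSpace ℝ E] : Prop :=
  ∀ x y : E, ‖x‖ = 1 → ‖y‖ = 1 → ∀ ε : ℝ, 0 < ε → ∃ T : E ≃ₗᵢ[ℝ] E, ‖T x - y‖ < ε

/-- bounded sequences have weakly convergent subsequences -/
def WSC (E : Type*) [NormedAddCommGroup E] [NormedSpace ℝ E] : Prop :=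
  ∀ (u : ℕ → E) (C : ℝ), (∀ n, ‖u n‖ ≤ C) → ∃ (a : E) (φ : ℕ → ℕ), StrictMono φ ∧
    ∀ f : StrongDual ℝ E, Tendsto (fun k => f (u (φ k))) atTop (𝓝 (f a))

/-- there is a separating sequence of functionals -/
def Sep (E : Type*) [NormedAddCommGroup E] [NormedSpace ℝ E] : Prop :=
  ∃ g : ℕ → StrongDual ℝ E, ∀ a : E, (∀ k, g k a = 0) → a = 0

variable {E : Type*} [NormedAddCommGroup E] [NormedSpace ℝ E]

/-- weakly null sequences -/
def WN (y : ℕ → E) : Prop := ∀ f : StrongDual ℝ E, Tendsto (fun n => f (y n)) atTop (𝓝 0)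

lemma WN.comp {y : ℕ → E} (h : WN y) {φ : ℕ → ℕ} (hφ : StrictMono φ) : WN (fun n => y (φ n)) :=
  fun f => (h f).comp hφ.tendsto_atTop

lemma WN.smul {y : ℕ → E} (h : WN y) (c : ℝ) : WN (fun n => c • y n) := by
  intro f
  have := (h f).const_mul c
  simpa only [map_smul, smul_eq_mul, mul_zero] using this

lemma WN.neg {y : ℕ → E} (h : WN y) : WN (fun n => - y n) := by
  intro f
  have := (h f).neg
  simpa only [map_neg, neg_zero] using this

lemma WN.map {y : ℕ → E} (h : WN y) (T : E →L[ℝ] E) : WN (fun n => T (y n)) := by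
  intro f
  exact h (f.comp T)

lemma WN.zero : WN (fun _ => (0 : E)) := by
  intro f
  simp

/-- `ℓ` is a limit of `‖x + y n‖` for a weakly null sequence whose norms tend to `t` -/
def Lim (x : E) (t l : ℝ) : Prop :=
  ∃ y : ℕ → E, WN y ∧ Tendsto (fun n => ‖y n‖) atTop (𝓝 t) ∧
    Tendsto (fun n => ‖x + y n‖) atTop (𝓝 l)

lemma Lim.nonneg {x : E} {t l : ℝ} (h : Lim x t l) : 0 ≤ t := by
  obtain ⟨y, -, h1, -⟩ := h
  exact ge_of_tendsto' h1 fun n => norm_nonneg _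

/-- weak lower semicontinuity of the norm -/
lemma norm_le_of_weak {u : ℕ → E} {a : E} {C : ℝ}
    (h : ∀ f : StrongDual ℝ E, Tendsto (fun n => f (u n)) atTop (𝓝 (f a)))
    (hC : Tendsto (fun n => ‖u n‖) atTop (𝓝 C)) : ‖a‖ ≤ C := by
  obtain ⟨f, hf, hfa⟩ := exists_dual_vector'' ℝ a
  have h1 := h f
  rw [hfa] at h1
  simp only [RCLike.ofReal_real_eq_id, id] at h1
  refine le_of_tendsto_of_tendsto' h1 hC fun n => ?_
  calc f (u n) ≤ |f (u n)| := le_abs_self _
    _ = ‖f (u n)‖ := rfl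
    _ ≤ ‖f‖ * ‖u n‖ := f.le_opNorm _
    _ ≤ 1 * ‖u n‖ := by gcongr
    _ = ‖u n‖ := one_mul _

lemma Lim.norm_le {x : E} {t l : ℝ} (h : Lim x t l) : ‖x‖ ≤ l := by
  obtain ⟨y, h0, -, h2⟩ := h
  refine norm_le_of_weak (u := fun n => x + y n) (fun f => ?_) h2
  have := (tendsto_const_nhds (x := f x)).add (h0 f)
  simpa only [map_add, add_zero] using this

lemma Lim.le_add {x : E} {t l : ℝ} (h : Lim x t l) : l ≤ ‖x‖ + t := by
  obtain ⟨y, -, h1, h2⟩ := h
  exact le_of_tendsto_of_tendsto' h2 (h1.const_add _) fun n => norm_add_le _ _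

lemma Lim.ge_sub {x : E} {t l : ℝ} (h : Lim x t l) : t - ‖x‖ ≤ l := by
  obtain ⟨y, -, h1, h2⟩ := h
  refine le_of_tendsto_of_tendsto' (h1.sub_const _) h2 fun n => ?_
  have := norm_sub_le (x + y n) x
  rw [add_sub_cancel_left] at this
  linarith

/-- bounded real sequences have convergent subsequences -/
lemma exists_sub {u : ℕ → ℝ} {C : ℝ} (h : ∀ n, |u n| ≤ C) :
    ∃ (l : ℝ) (φ : ℕ → ℕ), StrictMono φ ∧ Tendsto (fun n => u (φ n)) atTop (𝓝 l) := by
  obtain ⟨l, -, φ, h1, h2⟩ := (isCompact_Icc (a := -C) (b := C)).tendsto_subseq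
    (x := u) (fun n => ⟨(abs_le.1 (h n)).1, (abs_le.1 (h n)).2⟩)
  exact ⟨l, φ, h1, h2⟩

lemma bdd_of_tendsto {u : ℕ → ℝ} {t : ℝ} (h : Tendsto u atTop (𝓝 t)) : ∃ C, ∀ n, |u n| ≤ C := by
  obtain ⟨C, hC⟩ := h.norm.bddAbove_range
  exact ⟨C, fun n => hC ⟨n, rfl⟩⟩

/-- every weakly null sequence with convergent norms has a subsequence which gives a limit -/
lemma exists_lim {y : ℕ → E} (_h : WN y) {t : ℝ} (ht : Tendsto (fun n => ‖y n‖) atTop (𝓝 t))
    (x : E) : ∃ (l : ℝ) (φ : ℕ → ℕ), StrictMono φ ∧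
      Tendsto (fun n => ‖x + y (φ n)‖) atTop (𝓝 l) := by
  obtain ⟨C, hC⟩ := bdd_of_tendsto ht
  refine exists_sub (u := fun n => ‖x + y n‖) (C := ‖x‖ + C) fun n => ?_
  rw [abs_norm]
  refine (norm_add_le _ _).trans ?_
  have := hC n
  rw [abs_norm] at this
  linarith

lemma Lim.perturb {x : E} {t l : ℝ} (h : Lim x t l) (ht : 0 < t) (x' : E) (t' : ℝ)
    (ht' : 0 ≤ t') : ∃ l', Lim x' t' l' ∧ |l' - l| ≤ ‖x' - x‖ + |t' - t| := by
  obtain ⟨y, h0, h1, h2⟩ := h
  have k0 : WN fun n => (t' / t) • y n := h0.smul _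
  have k1 : Tendsto (fun n => ‖(t' / t) • y n‖) atTop (𝓝 t') := by
    have := h1.const_mul (t' / t)
    rw [div_mul_cancel₀ _ ht.ne'] at this
    refine this.congr fun n => ?_
    rw [norm_smul, Real.norm_of_nonneg (by positivity)]
  obtain ⟨l', φ, hφ, k2⟩ := exists_lim k0 k1 x'
  refine ⟨l', ⟨_, k0.comp hφ, k1.comp hφ.tendsto_atTop, k2⟩, ?_⟩
  have e1 : Tendsto (fun n => |‖x' + (t' / t) • y (φ n)‖ - ‖x + y (φ n)‖|) atTop
      (𝓝 |l' - l|) := (k2.sub (h2.comp hφ.tendsto_atTop)).abs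
  have e2 : Tendsto (fun n => ‖x' - x‖ + |t' / t - 1| * ‖y (φ n)‖) atTop
      (𝓝 (‖x' - x‖ + |t' / t - 1| * t)) :=
    ((h1.comp hφ.tendsto_atTop).const_mul _).const_add _
  have e3 : |t' / t - 1| * t = |t' - t| := by
    rw [← abs_of_pos ht, ← abs_mul, abs_of_pos ht, sub_mul, div_mul_cancel₀ _ ht.ne', one_mul]
  rw [e3] at e2
  refine le_of_tendsto_of_tendsto' e1 e2 fun n => ?_
  refine (abs_norm_sub_norm_le _ _).trans ?_
  have e4 : x' + (t' / t) • y (φ n) - (x + y (φ n)) = (x' - x) + (t' / t - 1) • y (φ n) := by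
    module
  rw [e4]
  refine (norm_add_le _ _).trans ?_
  rw [norm_smul, Real.norm_eq_abs]

lemma Lim.map {x : E} {t l : ℝ} (h : Lim x t l) (T : E ≃ₗᵢ[ℝ] E) : Lim (T x) t l := by
  obtain ⟨y, h0, h1, h2⟩ := h
  refine ⟨fun n => T (y n), h0.map (T.toContinuousLinearEquiv : E →L[ℝ] E), ?_, ?_⟩
  · simpa only [T.norm_map] using h1
  · simpa only [← map_add, T.norm_map] using h2

lemma Lim.smul {x : E} {t l : ℝ} (h : Lim x t l) {s : ℝ} (hs : 0 < s) :
    Lim (s • x) (s * t) (s * l) := by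
  obtain ⟨y, h0, h1, h2⟩ := h
  refine ⟨fun n => s • y n, h0.smul s, ?_, ?_⟩
  · refine (h1.const_mul s).congr fun n => ?_
    rw [norm_smul, Real.norm_of_nonneg hs.le]
  · refine (h2.const_mul s).congr fun n => ?_
    rw [← smul_add, norm_smul, Real.norm_of_nonneg hs.le]

/-- the convexity inequality behind the monotonicity in `t` -/
lemma conv_ineq (x y : E) {a : ℝ} (ha0 : 0 ≤ a) (ha1 : a ≤ 1) :
    ‖x + a • y‖ ≤ (1 - a) * ‖x‖ + a * ‖x + y‖ := by
  have e : x + a • y = (1 - a) • x + a • (x + y) := by module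
  rw [e]
  refine (norm_add_le _ _).trans ?_
  rw [norm_smul, norm_smul, Real.norm_of_nonneg ha0, Real.norm_of_nonneg (by linarith)]

lemma Lim.up {x : E} {t l : ℝ} (h : Lim x t l) {t' : ℝ} (ht : 0 < t) (htt : t ≤ t') :
    ∃ l', Lim x t' l' ∧ l ≤ l' := by
  obtain ⟨y, h0, h1, h2⟩ := h
  have ht' : 0 < t' := ht.trans_le htt
  have k0 : WN fun n => (t' / t) • y n := h0.smul _
  have k1 : Tendsto (fun n => ‖(t' / t) • y n‖) atTop (𝓝 t') := by
    have := h1.const_mul (t' / t)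
    rw [div_mul_cancel₀ _ ht.ne'] at this
    refine this.congr fun n => ?_
    rw [norm_smul, Real.norm_of_nonneg (by positivity)]
  obtain ⟨l', φ, hφ, k2⟩ := exists_lim k0 k1 x
  have hL : Lim x t' l' := ⟨_, k0.comp hφ, k1.comp hφ.tendsto_atTop, k2⟩
  refine ⟨l', hL, ?_⟩
  have ha1 : t / t' ≤ 1 := by rw [div_le_one ht']; exact htt
  have e1 : l ≤ (1 - t / t') * ‖x‖ + (t / t') * l' := by
    refine le_of_tendsto_of_tendsto' (h2.comp hφ.tendsto_atTop)
      ((k2.const_mul (t / t')).const_add ((1 - t / t') * ‖x‖)) fun n => ?_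
    have := conv_ineq x ((t' / t) • y (φ n)) (a := t / t') (by positivity) ha1
    rw [smul_smul, div_mul_div_cancel₀ ht'.ne', div_self ht.ne', one_smul] at this
    exact this
  have e2 := hL.norm_le
  have e3 : 0 ≤ 1 - t / t' := by linarith
  nlinarith

lemma Lim.down {x : E} {t' l' : ℝ} (h : Lim x t' l') {t : ℝ} (ht : 0 < t) (htt : t ≤ t') :
    ∃ l, Lim x t l ∧ l ≤ l' := by
  have hL := h
  obtain ⟨y, h0, h1, h2⟩ := h
  have ht' : 0 < t' := ht.trans_le htt
  have k0 : WN fun n => (t / t') • y n := h0.smul _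
  have k1 : Tendsto (fun n => ‖(t / t') • y n‖) atTop (𝓝 t) := by
    have := h1.const_mul (t / t')
    rw [div_mul_cancel₀ _ ht'.ne'] at this
    refine this.congr fun n => ?_
    rw [norm_smul, Real.norm_of_nonneg (by positivity)]
  obtain ⟨l, φ, hφ, k2⟩ := exists_lim k0 k1 x
  refine ⟨l, ⟨_, k0.comp hφ, k1.comp hφ.tendsto_atTop, k2⟩, ?_⟩
  have ha1 : t / t' ≤ 1 := by rw [div_le_one ht']; exact htt
  have e1 : l ≤ (1 - t / t') * ‖x‖ + (t / t') * l' := by
    refine le_of_tendsto_of_tendsto' k2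
      (((h2.comp hφ.tendsto_atTop).const_mul (t / t')).const_add ((1 - t / t') * ‖x‖))
      fun n => ?_
    exact conv_ineq x (y (φ n)) (a := t / t') (by positivity) ha1
  have e2 := hL.norm_le
  have e3 : 0 ≤ 1 - t / t' := by linarith
  nlinarith

/-- normalized weakly null sequences exist in infinite-dimensional spaces -/
lemma exists_null (hinf : ¬ FiniteDimensional ℝ E) (hW : WSC E) :
    ∃ y : ℕ → E, WN y ∧ ∀ n, ‖y n‖ = 1 := by
  obtain ⟨R, f, hR, hf1, hf2⟩ := exists_seq_norm_le_one_le_norm_sub (𝕜 := ℝ) (E := E) hinf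
  obtain ⟨a, φ, hφ, hlim⟩ := hW f R hf1
  set w : ℕ → E := fun n => f (φ n) - a with hw
  have hwn : WN w := by
    intro g
    have := (hlim g).sub (tendsto_const_nhds (x := g a))
    simpa only [hw, map_sub, sub_self] using this
  have hsep : ∀ m n, m ≠ n → 1 ≤ ‖w m - w n‖ := by
    intro m n hmn
    have h1 : w m - w n = f (φ m) - f (φ n) := by simp only [hw]; abel
    rw [h1]
    exact hf2 (fun h => hmn (hφ.injective h))
  have hlow : ∃ N, ∀ n, N ≤ n → 1 / 2 ≤ ‖w n‖ := by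
    by_cases h : ∃ m, ‖w m‖ < 1 / 2
    · obtain ⟨m, hm⟩ := h
      refine ⟨m + 1, fun n hn => ?_⟩
      by_contra hc
      push Not at hc
      have h1 := hsep m n (by omega)
      have h2 := norm_sub_le (w m) (w n)
      linarith
    · push Not at h
      exact ⟨0, fun n _ => h n⟩
  obtain ⟨N, hN⟩ := hlow
  refine ⟨fun n => ‖w (N + n)‖⁻¹ • w (N + n), fun g => ?_, fun n => ?_⟩
  · have h1 : Tendsto (fun n => g (w (N + n))) atTop (𝓝 0) :=
      (hwn g).comp (tendsto_atTop_mono (fun n => Nat.le_add_left _ _) tendsto_id)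
    have h2 : Tendsto (fun n => 2 * ‖g (w (N + n))‖) atTop (𝓝 0) := by
      have := (h1.norm).const_mul 2
      simpa using this
    refine squeeze_zero_norm (fun n => ?_) h2
    rw [map_smul, norm_smul, norm_inv, norm_norm]
    have h3 := hN (N + n) (Nat.le_add_right _ _)
    have h4 : ‖w (N + n)‖⁻¹ ≤ 2 := by
      rw [inv_le_comm₀ (by linarith) two_pos]
      linarith
    gcongr
  · have h3 := hN (N + n) (Nat.le_add_right _ _)
    rw [norm_smul, norm_inv, norm_norm, inv_mul_cancel₀ (by linarith)]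

lemma exists_Lim (hinf : ¬ FiniteDimensional ℝ E) (hW : WSC E) (x : E) {t : ℝ} (ht : 0 < t) :
    ∃ l, Lim x t l := by
  obtain ⟨y, h0, h1⟩ := exists_null hinf hW
  have k0 : WN fun n => t • y n := h0.smul _
  have k1 : Tendsto (fun n => ‖t • y n‖) atTop (𝓝 t) := by
    refine tendsto_const_nhds.congr fun n => ?_
    rw [norm_smul, h1, Real.norm_of_nonneg ht.le, mul_one]
  obtain ⟨l, φ, hφ, k2⟩ := exists_lim k0 k1 x
  exact ⟨l, _, k0.comp hφ, k1.comp hφ.tendsto_atTop, k2⟩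

end Pool.Agent.N314.OP
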