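import Pool.Agent.H65.BM.L.N314.OP.Mod
import Pool.Agent.H65.BM.L.N314.OP.Opial
import Pool.Agent.H65.BM.L.H857R2.NC.MPT

/-!
# The Opial condition in spaces close to Hilbert spaces
-/

set_option autoImplicit false

namespace Pool.Agent.N314.OP

open Filter Topology Pool.Agent.N314.OP.Mod

variable {E : Type*} [NormedAddCommGroup E] [NormedSpace ℝ E]

/-- the upper estimate -/
lemma opial_upper_p (hO : OpialL E) {p K : ℝ} (hK : USp E p K) {x : E} {l : ℝ}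
    (hx : x ≠ 0) (hl : Lim x 1 l) : l ≤ 1 + K * ‖x‖ ^ p := by
  have hx0 : 0 < ‖x‖ := norm_pos_iff.2 hx
  obtain ⟨y, h0, h1, h2⟩ := hl
  obtain ⟨m, φ, hφ, h3⟩ := exists_lim h0 h1 (-x)
  have h4 : 1 ≤ m := opial_lim hO (h0.comp hφ) (h1.comp hφ.tendsto_atTop) h3
  have g1 := h1.comp hφ.tendsto_atTop
  have g2 := h2.comp hφ.tendsto_atTop
  have hne : ∀ᶠ n in atTop, 0 < ‖y (φ n)‖ := g1.eventually_const_lt (by norm_num)
  have h5 : Tendsto (fun n => ‖x + y (φ n)‖ + ‖-x + y (φ n)‖ - 2 * ‖y (φ n)‖) atTop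
      (𝓝 (l + m - 2 * 1)) := (g2.add h3).sub (g1.const_mul 2)
  have h6 : Tendsto (fun n => ‖y (φ n)‖ * (K * ((‖y (φ n)‖)⁻¹ * ‖x‖) ^ p)) atTop
      (𝓝 (1 * (K * ((1)⁻¹ * ‖x‖) ^ p))) := by
    have e1 : Tendsto (fun n => (‖y (φ n)‖)⁻¹ * ‖x‖) atTop (𝓝 ((1)⁻¹ * ‖x‖)) :=
      (g1.inv₀ one_ne_zero).mul_const _
    exact g1.mul ((e1.rpow_const (Or.inl (by simpa using hx))).const_mul K)
  have h7 : l + m - 2 * 1 ≤ 1 * (K * ((1)⁻¹ * ‖x‖) ^ p) := by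
    refine le_of_tendsto_of_tendsto h5 h6 ?_
    filter_upwards [hne] with n hn
    set b := ‖y (φ n)‖ with hb
    have e0 : ‖b⁻¹ • y (φ n)‖ = 1 := by
      rw [norm_smul, norm_inv, Real.norm_of_nonneg hn.le, ← hb, inv_mul_cancel₀ hn.ne']
    have e1 := hK (b⁻¹ • y (φ n)) (b⁻¹ • x) e0
    have e2 : b⁻¹ • y (φ n) + b⁻¹ • x = b⁻¹ • (x + y (φ n)) := by module
    have e3 : b⁻¹ • y (φ n) - b⁻¹ • x = b⁻¹ • (-x + y (φ n)) := by module
    rw [e2, e3, norm_smul, norm_smul, norm_smul, norm_inv, Real.norm_of_nonneg hn.le] at e1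
    have e4 := mul_le_mul_of_nonneg_left e1 hn.le
    have e5 : b * (b⁻¹ * ‖x + y (φ n)‖ + b⁻¹ * ‖-x + y (φ n)‖) =
        ‖x + y (φ n)‖ + ‖-x + y (φ n)‖ := by
      field_simp
    rw [e5] at e4
    linarith
  rw [inv_one, one_mul, one_mul] at h7
  linarith

/-- the lower estimate -/
lemma opial_lower_q (hO : OpialL E) {q c : ℝ} (hq : 1 ≤ q) (hq3 : q ≤ 3) (_hc0 : 0 < c)
    (hc : UCq E q c) {x : E} {l : ℝ}
    (hx : ‖x‖ ≤ 1) (hl : Lim x 1 l) : 1 + c / 56 * ‖x‖ ^ q ≤ l := by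
  have hle : l ≤ 2 := hl.le_add.trans (by linarith)
  have hq0 : 0 < q := by linarith
  obtain ⟨y, h0, h1, h2⟩ := hl
  obtain ⟨m, φ, hφ, h3⟩ := exists_lim h0 h1 ((1 / 2 : ℝ) • x)
  have h4 : 1 ≤ m := opial_lim hO (h0.comp hφ) (h1.comp hφ.tendsto_atTop) h3
  have g1 := h1.comp hφ.tendsto_atTop
  have g2 := h2.comp hφ.tendsto_atTop
  have h8 : 1 ≤ l := hO x l ⟨y, h0, h1, h2⟩
  have h5 : Tendsto (fun n => ‖x + y (φ n)‖ ^ q + ‖y (φ n)‖ ^ q -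
      2 * ‖(1 / 2 : ℝ) • x + y (φ n)‖ ^ q) atTop (𝓝 (l ^ q + 1 ^ q - 2 * m ^ q)) :=
    ((g2.rpow_const (Or.inr hq0.le)).add (g1.rpow_const (Or.inr hq0.le))).sub
      ((h3.rpow_const (Or.inr hq0.le)).const_mul 2)
  have h6 : c * (‖x‖ / 2) ^ q ≤ l ^ q + 1 ^ q - 2 * m ^ q := by
    refine ge_of_tendsto' h5 fun n => ?_
    have e1 := hc ((1 / 2 : ℝ) • x + y (φ n)) ((1 / 2 : ℝ) • x)
    have e2 : (1 / 2 : ℝ) • x + y (φ n) + (1 / 2 : ℝ) • x = x + y (φ n) := by module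
    have e3 : (1 / 2 : ℝ) • x + y (φ n) - (1 / 2 : ℝ) • x = y (φ n) := by module
    have e4 : ‖(1 / 2 : ℝ) • x‖ = ‖x‖ / 2 := by
      rw [norm_smul, Real.norm_of_nonneg (by norm_num)]; ring
    rw [e2, e3, e4] at e1
    exact e1
  have h7 : 1 ≤ m ^ q := Real.one_le_rpow h4 hq0.le
  -- convexity
  have h9 : l ^ q ≤ (2 - l) * 1 ^ q + (l - 1) * 2 ^ q := by
    have cv := (convexOn_rpow hq).2
    have e1 := cv (show (1 : ℝ) ∈ Set.Ici 0 by simp) (show (2 : ℝ) ∈ Set.Ici 0 by simp)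
      (show 0 ≤ 2 - l by linarith) (show 0 ≤ l - 1 by linarith) (by ring)
    simp only [smul_eq_mul] at e1
    have e2 : (2 - l) * 1 + (l - 1) * 2 = l := by ring
    rw [e2] at e1
    exact e1
  have h10 : (2 : ℝ) ^ q ≤ 8 := by
    calc (2 : ℝ) ^ q ≤ 2 ^ (3 : ℝ) := Real.rpow_le_rpow_of_exponent_le (by norm_num) hq3
      _ = 8 := by norm_num
  rw [Real.one_rpow] at h6 h9
  have h11 : (‖x‖ / 2) ^ q = ‖x‖ ^ q / 2 ^ q := Real.div_rpow (norm_nonneg _) (by norm_num) q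
  have h12 : ‖x‖ ^ q / 8 ≤ (‖x‖ / 2) ^ q := by
    rw [h11]
    have : 0 ≤ ‖x‖ ^ q := Real.rpow_nonneg (norm_nonneg _) q
    gcongr
  have h13 : (l - 1) * 2 ^ q ≤ (l - 1) * 8 := mul_le_mul_of_nonneg_left h10 (by linarith)
  have h14 : c * (‖x‖ ^ q / 8) ≤ c * (‖x‖ / 2) ^ q := by gcongr
  linarith

/-- **Opial's condition gives two-sided estimates** for all exponents around `2` -/
theorem opial_TSLe (hO : OpialL E)
    (h1 : ∀ η : ℝ, 0 < η → η < 1 → ∃ K : ℝ, 0 < K ∧ USp E (2 - η) K)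
    (h2 : ∀ η : ℝ, 0 < η → η < 1 → ∃ c : ℝ, 0 < c ∧ UCq E (2 + η) c) : TSLe E 2 := by
  intro η hη hη1
  obtain ⟨K, hK0, hK⟩ := h1 η hη hη1
  obtain ⟨c, hc0, hc⟩ := h2 η hη hη1
  refine ⟨c / 56, K, by positivity, fun x l hx hx1 hl => ⟨?_, ?_⟩⟩
  · exact opial_lower_q hO (by linarith) (by linarith) hc0 hc hx1 hl
  · exact opial_upper_p hO hK hx hl

/-- convexity of power type gives uniform convexity -/
lemma uniformConvex_of_UCq {q c : ℝ} (hq : 1 ≤ q) (hc : 0 < c) (h : UCq E q c) :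
    UniformConvexSpace E := by
  have hq0 : 0 < q := by linarith
  refine ⟨fun ε hε => ?_⟩
  set a : ℝ := c * (ε / 2) ^ q / 2 with ha
  have ha0 : 0 < a := by positivity
  set b : ℝ := max (1 - a) 0 with hb
  have hb0 : 0 ≤ b := le_max_right _ _
  have hb1 : b < 1 := max_lt (by linarith) one_pos
  have hb2 : b ^ (1 / q) < 1 := Real.rpow_lt_one hb0 hb1 (by positivity)
  refine ⟨2 - 2 * b ^ (1 / q), by linarith, fun x hx y hy hxy => ?_⟩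
  have e1 := h ((1 / 2 : ℝ) • (x + y)) ((1 / 2 : ℝ) • (x - y))
  have e2 : (1 / 2 : ℝ) • (x + y) + (1 / 2 : ℝ) • (x - y) = x := by module
  have e3 : (1 / 2 : ℝ) • (x + y) - (1 / 2 : ℝ) • (x - y) = y := by module
  rw [e2, e3, hx, hy, Real.one_rpow, norm_smul, norm_smul,
    Real.norm_of_nonneg (by norm_num : (0 : ℝ) ≤ 1 / 2)] at e1
  have e4 : (ε / 2) ^ q ≤ (1 / 2 * ‖x - y‖) ^ q :=
    Real.rpow_le_rpow (by positivity) (by linarith) hq0.le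
  have e5 : c * (ε / 2) ^ q ≤ c * (1 / 2 * ‖x - y‖) ^ q := by gcongr
  have e6 : (1 / 2 * ‖x + y‖) ^ q ≤ b := by
    refine le_trans ?_ (le_max_left _ _)
    rw [ha]
    linarith
  have e7 : 1 / 2 * ‖x + y‖ ≤ b ^ (1 / q) := by
    have := Real.rpow_le_rpow (Real.rpow_nonneg (by positivity) q) e6
      (show 0 ≤ 1 / q by positivity)
    rwa [← Real.rpow_mul (by positivity), mul_one_div_cancel hq0.ne', Real.rpow_one] at this
  linarith

/-- convexity of power type gives reflexivity -/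
lemma reflexive_of_UCq [CompleteSpace E] {q c : ℝ} (hq : 1 ≤ q) (hc : 0 < c) (h : UCq E q c) :
    Function.Surjective (NormedSpace.inclusionInDoubleDual ℝ E) := by
  have := uniformConvex_of_UCq hq hc h
  exact H857NC.MPT E

/-! ### Hilbert spaces -/

section hilbert

variable {H : Type*} [NormedAddCommGroup H] [InnerProductSpace ℝ H]

lemma hilbert_USp {η : ℝ} (h0 : 0 < η) (h1 : η < 1) : USp H (2 - η) 2 := by
  intro x w hx
  rcases le_total ‖w‖ 1 with hw | hw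
  · -- small
    have e1 : ‖x + w‖ ^ 2 + ‖x - w‖ ^ 2 = 2 * (1 + ‖w‖ ^ 2) := by
      have := parallelogram_law_with_norm ℝ x w
      rw [hx] at this
      nlinarith
    have e2 : ‖x + w‖ + ‖x - w‖ ≤ 2 * (1 + ‖w‖ ^ 2) := by
      nlinarith [sq_nonneg (‖x + w‖ - 1), sq_nonneg (‖x - w‖ - 1)]
    have e3 : ‖w‖ ^ 2 ≤ ‖w‖ ^ (2 - η) := by
      rcases (norm_nonneg w).eq_or_lt with h | h
      · rw [← h, Real.zero_rpow (by linarith)]
        norm_num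
      · rw [← Real.rpow_two]
        exact Real.rpow_le_rpow_of_exponent_ge h hw (by linarith)
    linarith
  · have e1 := norm_add_le x w
    have e2 := norm_sub_le x w
    have e3 : ‖w‖ ≤ ‖w‖ ^ (2 - η) := by
      calc ‖w‖ = ‖w‖ ^ (1 : ℝ) := (Real.rpow_one _).symm
        _ ≤ ‖w‖ ^ (2 - η) := Real.rpow_le_rpow_of_exponent_le hw (by linarith)
    rw [hx] at e1 e2
    linarith

lemma hilbert_UCq {η : ℝ} (h0 : 0 < η) : UCq H (2 + η) 2 := by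
  intro x w
  set r : ℝ := (2 + η) / 2 with hr
  have hr1 : 1 ≤ r := by rw [hr]; linarith
  have key : ∀ v : H, ‖v‖ ^ (2 + η) = (‖v‖ ^ 2) ^ r := by
    intro v
    rw [← Real.rpow_natCast ‖v‖ 2, ← Real.rpow_mul (norm_nonneg v), hr]
    congr 1
    push_cast
    ring
  rw [key, key, key, key]
  have e1 : ‖x + w‖ ^ 2 + ‖x - w‖ ^ 2 = 2 * (‖x‖ ^ 2 + ‖w‖ ^ 2) := by
    have := parallelogram_law_with_norm ℝ x w
    nlinarith
  -- convexity
  have e2 : (‖x‖ ^ 2 + ‖w‖ ^ 2) ^ r ≤ 1 / 2 * (‖x + w‖ ^ 2) ^ r + 1 / 2 * (‖x - w‖ ^ 2) ^ r := by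
    have cv := (convexOn_rpow hr1).2
    have e1' := cv (show ‖x + w‖ ^ 2 ∈ Set.Ici 0 by simp only [Set.mem_Ici]; positivity)
      (show ‖x - w‖ ^ 2 ∈ Set.Ici 0 by simp only [Set.mem_Ici]; positivity)
      (show (0 : ℝ) ≤ 1 / 2 by norm_num) (show (0 : ℝ) ≤ 1 / 2 by norm_num) (by norm_num)
    simp only [smul_eq_mul] at e1'
    have e2 : 1 / 2 * ‖x + w‖ ^ 2 + 1 / 2 * ‖x - w‖ ^ 2 = ‖x‖ ^ 2 + ‖w‖ ^ 2 := by linarith
    rw [e2] at e1'
    exact e1'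
  have e3 : (‖x‖ ^ 2) ^ r + (‖w‖ ^ 2) ^ r ≤ (‖x‖ ^ 2 + ‖w‖ ^ 2) ^ r :=
    Real.add_rpow_le_rpow_add (by positivity) (by positivity) hr1
  linarith

end hilbert

end Pool.Agent.N314.OP
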